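import Pool.Agent.helper69.AD.Sup

/-!
Module SUP (MP_a29257_gt): support planes of the convex hull of the limit curve.
-/

open scoped MatrixGroups LinearAlgebra.Projectivization
open Matrix UpperHalfPlane

namespace AdSBend

variable {Γ : Subgroup SL(2, ℝ)}

theorem SUP_dt_smul (a b : ℝ) (u v : Fin 2 → ℝ) : dt (a • u) (b • v) = a * b * dt u v := by
  simp only [dt, Pi.smul_apply, smul_eq_mul]
  ring

theorem SUP_dt_self (u : Fin 2 → ℝ) : dt u u = 0 := by
  unfold dt
  ring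

theorem SUP_dt_comm (u v : Fin 2 → ℝ) : dt u v = -dt v u := by
  unfold dt
  ring

theorem SUP_dt_neg_right (u v : Fin 2 → ℝ) : dt u (-v) = -dt u v := by
  simp only [dt, Pi.neg_apply]
  ring

theorem SUP_dt_neg_left (u v : Fin 2 → ℝ) : dt (-u) v = -dt u v := by
  simp only [dt, Pi.neg_apply]
  ring

theorem SUP_smul_zero (g : SL(2, ℝ)) (v : Fin 2 → ℝ) :
    (g • v) 0 = g.1 0 0 * v 0 + g.1 0 1 * v 1 := by
  change (g.1.mulVec v) 0 = _
  simp [Matrix.mulVec, dotProduct, Fin.sum_univ_two]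

theorem SUP_smul_one (g : SL(2, ℝ)) (v : Fin 2 → ℝ) :
    (g • v) 1 = g.1 1 0 * v 0 + g.1 1 1 * v 1 := by
  change (g.1.mulVec v) 1 = _
  simp [Matrix.mulVec, dotProduct, Fin.sum_univ_two]

theorem SUP_dt_act (g : SL(2, ℝ)) (u v : Fin 2 → ℝ) : dt (g • u) (g • v) = dt u v := by
  have h : g.1 0 0 * g.1 1 1 - g.1 0 1 * g.1 1 0 = 1 := by
    rw [← Matrix.det_fin_two]; exact g.2
  unfold dt
  rw [SUP_smul_zero, SUP_smul_one, SUP_smul_zero, SUP_smul_one]
  linear_combination (u 0 * v 1 - u 1 * v 0) * h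

theorem SUP_rep (u : Fin 2 → ℝ) (hu : u ≠ 0) :
    ∃ a : ℝ, a ≠ 0 ∧ (Projectivization.mk ℝ u hu : Bd).rep = a • u := by
  obtain ⟨a, ha⟩ := Projectivization.exists_smul_eq_mk_rep ℝ u hu
  exact ⟨(a : ℝ), a.ne_zero, ha.symm⟩

theorem SUP_cyc (u v w : Fin 2 → ℝ) (hu : u ≠ 0) (hv : v ≠ 0) (hw : w ≠ 0) :
    Cyc (Projectivization.mk ℝ u hu) (Projectivization.mk ℝ v hv) (Projectivization.mk ℝ w hw) ↔
      0 < dt u v * dt v w * dt w u := by
  obtain ⟨a, ha, hra⟩ := SUP_rep u hu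
  obtain ⟨b, hb, hrb⟩ := SUP_rep v hv
  obtain ⟨c, hc, hrc⟩ := SUP_rep w hw
  unfold Cyc
  rw [hra, hrb, hrc, SUP_dt_smul, SUP_dt_smul, SUP_dt_smul]
  have h1 : a * b * dt u v * (b * c * dt v w) * (c * a * dt w u)
      = (a * b * c) ^ 2 * (dt u v * dt v w * dt w u) := by ring
  rw [h1]
  have h2 : 0 < (a * b * c) ^ 2 := by positivity
  exact mul_pos_iff_of_pos_left h2

theorem SUP_mk_eq (u v : Fin 2 → ℝ) (hu : u ≠ 0) (hv : v ≠ 0) :
    (Projectivization.mk ℝ u hu : Bd) = Projectivization.mk ℝ v hv ↔ dt u v = 0 := by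
  rw [Projectivization.mk_eq_mk_iff']
  constructor
  · rintro ⟨a, rfl⟩
    have h := SUP_dt_smul a 1 v v
    rw [one_smul, SUP_dt_self, mul_zero] at h
    exact h
  · intro h
    unfold dt at h
    by_cases h0 : v 0 = 0
    · have h1 : v 1 ≠ 0 := by
        intro h1
        apply hv
        funext i
        fin_cases i
        · exact h0
        · exact h1
      refine ⟨u 1 / v 1, ?_⟩
      funext i
      fin_cases i
      · change u 1 / v 1 * v 0 = u 0
        rw [h0] at h ⊢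
        have : u 0 * v 1 = 0 := by linarith
        rcases mul_eq_zero.mp this with h2 | h2
        · rw [h2]; ring
        · exact absurd h2 h1
      · change u 1 / v 1 * v 1 = u 1
        field_simp
    · refine ⟨u 0 / v 0, ?_⟩
      funext i
      fin_cases i
      · change u 0 / v 0 * v 0 = u 0
        field_simp
      · change u 0 / v 0 * v 1 = u 1
        field_simp
        linarith

theorem SUP_act_ne (N : SL(2, ℝ)) (u : Fin 2 → ℝ) (hu : u ≠ 0) : N • u ≠ 0 := by
  intro h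
  apply hu
  have h1 : N⁻¹ • (N • u) = N⁻¹ • (0 : Fin 2 → ℝ) := by rw [h]
  rw [inv_smul_smul, smul_zero] at h1
  exact h1

theorem SUP_trace (N : SL(2, ℝ)) (u v : Fin 2 → ℝ) :
    Matrix.trace ((N⁻¹ : SL(2, ℝ)) * Matrix.vecMulVec v ![-(u 1), u 0] :
      Matrix (Fin 2) (Fin 2) ℝ) = dt (N • u) v := by
  unfold dt
  rw [SUP_smul_zero, SUP_smul_one, Matrix.SpecialLinearGroup.coe_inv, Matrix.adjugate_fin_two,
    Matrix.trace_fin_two]
  simp [Matrix.mul_apply, Fin.sum_univ_two]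
  ring

theorem SUP_det (u v u' v' : Fin 2 → ℝ) :
    (Matrix.vecMulVec v ![-(u 1), u 0] + Matrix.vecMulVec v' ![-(u' 1), u' 0]).det
      = dt u u' * dt v v' := by
  unfold dt
  rw [Matrix.det_fin_two]
  simp [Matrix.vecMulVec_apply]
  ring

theorem SUP_total (x y z : Bd) (hxy : x ≠ y) (hyz : y ≠ z) (hzx : z ≠ x) :
    Cyc x y z ∨ Cyc x z y := by
  have key : ∀ a b : Bd, a ≠ b → dt a.rep b.rep ≠ 0 := by
    intro a b hab h
    apply hab
    have h1 := (SUP_mk_eq a.rep b.rep a.rep_nonzero b.rep_nonzero).mpr h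
    rwa [Projectivization.mk_rep, Projectivization.mk_rep] at h1
  unfold Cyc
  have h1 := key x y hxy
  have h2 := key y z hyz
  have h3 := key z x hzx
  have h4 : dt x.rep z.rep * dt z.rep y.rep * dt y.rep x.rep
      = -(dt x.rep y.rep * dt y.rep z.rep * dt z.rep x.rep) := by
    rw [SUP_dt_comm x.rep z.rep, SUP_dt_comm z.rep y.rep, SUP_dt_comm y.rep x.rep]
    ring
  rw [h4]
  have h5 : dt x.rep y.rep * dt y.rep z.rep * dt z.rep x.rep ≠ 0 :=
    mul_ne_zero (mul_ne_zero h1 h2) h3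
  rcases lt_or_gt_of_ne h5 with h | h
  · right; linarith
  · left; exact h

/-- a coherent choice of vectors -/
structure SUP_Coh (M : GHMC Γ) (u v : Bd → Fin 2 → ℝ) : Prop where
  hu : ∀ c, u c ≠ 0
  hv : ∀ c, v c ≠ 0
  l : ∀ c, M.left.bd c = Projectivization.mk ℝ (u c) (hu c)
  r : ∀ c, M.right.bd c = Projectivization.mk ℝ (v c) (hv c)
  coh : ∀ c c', 0 ≤ dt (u c) (u c') * dt (v c) (v c')

theorem SUP_coh_lift (M : GHMC Γ) (u v : Bd → Fin 2 → ℝ) (h : SUP_Coh M u v) :
    M.IsLift (fun c => Matrix.vecMulVec (v c) ![-(u c 1), u c 0]) := by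
  refine ⟨fun c => ⟨u c, v c, h.hu c, h.hv c, h.l c, h.r c, rfl⟩, fun c c' => ?_⟩
  have := h.coh c c'
  rw [← SUP_det] at this
  exact this

theorem SUP_lift_coh (M : GHMC Γ) (L : Bd → Matrix (Fin 2) (Fin 2) ℝ) (h : M.IsLift L) :
    ∃ u v : Bd → Fin 2 → ℝ, SUP_Coh M u v ∧
      ∀ c, L c = Matrix.vecMulVec (v c) ![-(u c 1), u c 0] := by
  obtain ⟨h1, h2⟩ := h
  choose u v hu hv hl hr hL using h1
  refine ⟨u, v, ⟨hu, hv, hl, hr, fun c c' => ?_⟩, hL⟩
  have := h2 c c'
  rw [hL c, hL c', SUP_det] at this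
  exact this

theorem SUP_coh_exists (M : GHMC Γ) : ∃ u v : Bd → Fin 2 → ℝ, SUP_Coh M u v := by
  classical
  have h10 : (![1, 0] : Fin 2 → ℝ) ≠ 0 := by
    intro h
    have := congrFun h 0
    simp at this
  let c₀ : Bd := Projectivization.mk ℝ ![1, 0] h10
  let sg : (Fin 2 → ℝ) → (Fin 2 → ℝ) → (Fin 2 → ℝ) := fun o x => if 0 ≤ dt o x then x else -x
  have sg_ne : ∀ o x, x ≠ 0 → sg o x ≠ 0 := by
    intro o x hx
    change (if 0 ≤ dt o x then x else -x) ≠ 0
    split_ifs
    · exact hx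
    · exact neg_ne_zero.mpr hx
  have sg_nonneg : ∀ o x, 0 ≤ dt o (sg o x) := by
    intro o x
    change 0 ≤ dt o (if 0 ≤ dt o x then x else -x)
    split_ifs with h
    · exact h
    · rw [SUP_dt_neg_right]; linarith
  have sg_mk : ∀ o (x : Bd), x = Projectivization.mk ℝ (sg o x.rep) (sg_ne o _ x.rep_nonzero) := by
    intro o x
    have h1 : Projectivization.mk ℝ x.rep x.rep_nonzero
        = Projectivization.mk ℝ (sg o x.rep) (sg_ne o _ x.rep_nonzero) := by
      rw [SUP_mk_eq]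
      change dt x.rep (if 0 ≤ dt o x.rep then x.rep else -x.rep) = 0
      split_ifs
      · exact SUP_dt_self _
      · rw [SUP_dt_neg_right, SUP_dt_self]; ring
    rw [Projectivization.mk_rep] at h1
    exact h1
  have sg_self : ∀ o, sg o o = o := by
    intro o
    change (if 0 ≤ dt o o then o else -o) = o
    rw [SUP_dt_self, if_pos le_rfl]
  set ou := (M.left.bd c₀).rep with hou
  set ov := (M.right.bd c₀).rep with hov
  let u : Bd → Fin 2 → ℝ := fun c => sg ou (M.left.bd c).rep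
  let v : Bd → Fin 2 → ℝ := fun c => sg ov (M.right.bd c).rep
  have hu : ∀ c, u c ≠ 0 := fun c => sg_ne _ _ (Projectivization.rep_nonzero _)
  have hv : ∀ c, v c ≠ 0 := fun c => sg_ne _ _ (Projectivization.rep_nonzero _)
  have hl : ∀ c, M.left.bd c = Projectivization.mk ℝ (u c) (hu c) := fun c => sg_mk ou _
  have hr : ∀ c, M.right.bd c = Projectivization.mk ℝ (v c) (hv c) := fun c => sg_mk ov _
  have hu0 : u c₀ = ou := by
    change sg ou (M.left.bd c₀).rep = ou
    rw [← hou, sg_self]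
  have hv0 : v c₀ = ov := by
    change sg ov (M.right.bd c₀).rep = ov
    rw [← hov, sg_self]
  have hun : ∀ c, 0 ≤ dt (u c₀) (u c) := fun c => by rw [hu0]; exact sg_nonneg _ _
  have hvn : ∀ c, 0 ≤ dt (v c₀) (v c) := fun c => by rw [hv0]; exact sg_nonneg _ _
  have hup : ∀ c c', c ≠ c' → dt (u c) (u c') ≠ 0 := by
    intro c c' hc h
    apply hc
    have := (SUP_mk_eq (u c) (u c') (hu c) (hu c')).mpr h
    rw [← hl, ← hl] at this
    exact M.left.bd.injective this
  have hvp : ∀ c c', c ≠ c' → dt (v c) (v c') ≠ 0 := by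
    intro c c' hc h
    apply hc
    have := (SUP_mk_eq (v c) (v c') (hv c) (hv c')).mpr h
    rw [← hr, ← hr] at this
    exact M.right.bd.injective this
  -- the key sign lemma
  have key : ∀ c c', c ≠ c₀ → c' ≠ c₀ → Cyc c₀ c c' →
      dt (u c) (u c') < 0 ∧ dt (v c) (v c') < 0 := by
    intro c c' hc hc' hcyc
    have h1 := M.left.bd_cyc _ _ _ hcyc
    have h2 := M.right.bd_cyc _ _ _ hcyc
    rw [hl c₀, hl c, hl c', SUP_cyc] at h1
    rw [hr c₀, hr c, hr c', SUP_cyc] at h2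
    have a1 : 0 < dt (u c₀) (u c) := lt_of_le_of_ne (hun c) (hup c₀ c hc.symm).symm
    have a2 : 0 < dt (u c₀) (u c') := lt_of_le_of_ne (hun c') (hup c₀ c' hc'.symm).symm
    have b1 : 0 < dt (v c₀) (v c) := lt_of_le_of_ne (hvn c) (hvp c₀ c hc.symm).symm
    have b2 : 0 < dt (v c₀) (v c') := lt_of_le_of_ne (hvn c') (hvp c₀ c' hc'.symm).symm
    rw [SUP_dt_comm (u c') (u c₀)] at h1
    rw [SUP_dt_comm (v c') (v c₀)] at h2
    constructor
    · by_contra hcon
      have hcon := not_lt.mp hcon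
      have : 0 ≤ dt (u c₀) (u c) * dt (u c) (u c') * dt (u c₀) (u c') := by positivity
      nlinarith
    · by_contra hcon
      have hcon := not_lt.mp hcon
      have : 0 ≤ dt (v c₀) (v c) * dt (v c) (v c') * dt (v c₀) (v c') := by positivity
      nlinarith
  refine ⟨u, v, ⟨hu, hv, hl, hr, fun c c' => ?_⟩⟩
  by_cases hcc : c = c'
  · rw [hcc, SUP_dt_self, zero_mul]
  by_cases h0 : c = c₀
  · rw [h0]; exact mul_nonneg (hun c') (hvn c')
  by_cases h0' : c' = c₀
  · rw [h0', SUP_dt_comm (u c), SUP_dt_comm (v c)]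
    have := mul_nonneg (hun c) (hvn c)
    linarith
  rcases SUP_total c₀ c c' (Ne.symm h0) hcc h0' with h | h
  · obtain ⟨h1, h2⟩ := key c c' h0 h0' h
    exact (mul_pos_of_neg_of_neg h1 h2).le
  · obtain ⟨h1, h2⟩ := key c' c h0' h0 h
    rw [SUP_dt_comm (u c), SUP_dt_comm (v c)]
    have := mul_pos_of_neg_of_neg h1 h2
    linarith

theorem SUP_coh_neg (M : GHMC Γ) (u v : Bd → Fin 2 → ℝ) (h : SUP_Coh M u v) :
    SUP_Coh M u (fun c => -v c) := by
  refine ⟨h.hu, fun c => neg_ne_zero.mpr (h.hv c), h.l, fun c => ?_, fun c c' => ?_⟩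
  · rw [h.r c, SUP_mk_eq, SUP_dt_neg_right, SUP_dt_self]
    ring
  · have := h.coh c c'
    rw [SUP_dt_neg_right, SUP_dt_neg_left, neg_neg]
    exact this

theorem SUP_touch (M : GHMC Γ) (u v : Bd → Fin 2 → ℝ) (h : SUP_Coh M u v) (N : SL(2, ℝ)) (c : Bd) :
    M.Touches N c ↔ dt (N • u c) (v c) = 0 := by
  unfold GHMC.Touches
  rw [h.l c, h.r c, Projectivization.smul_mk]
  exact SUP_mk_eq (N • u c) (v c) (SUP_act_ne N _ (h.hu c)) (h.hv c)

theorem SUP_eps (M : GHMC Γ) (u v : Bd → Fin 2 → ℝ) (h : SUP_Coh M u v) (N : SL(2, ℝ)) (c : Bd)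
    (hc : M.Touches N c) : ∃ e : ℝ, e ≠ 0 ∧ v c = e • (N • u c) := by
  unfold GHMC.Touches at hc
  rw [h.l c, h.r c, Projectivization.smul_mk] at hc
  have hc' := hc.symm
  rw [Projectivization.mk_eq_mk_iff'] at hc'
  obtain ⟨a, ha⟩ := hc'
  refine ⟨a, ?_, ha.symm⟩
  rintro rfl
  apply h.hv c
  rw [← ha, zero_smul]

theorem SUP_K (M : GHMC Γ) (u v : Bd → Fin 2 → ℝ) (h : SUP_Coh M u v) (c₀ c : Bd) (hc : c ≠ c₀) :
    0 < dt (u c₀) (u c) * dt (v c₀) (v c) := by
  refine lt_of_le_of_ne (h.coh c₀ c) (Ne.symm (mul_ne_zero ?_ ?_))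
  · intro h1
    apply hc
    have := (SUP_mk_eq (u c₀) (u c) (h.hu _) (h.hu _)).mpr h1
    rw [← h.l, ← h.l] at this
    exact (M.left.bd.injective this).symm
  · intro h1
    apply hc
    have := (SUP_mk_eq (v c₀) (v c) (h.hv _) (h.hv _)).mpr h1
    rw [← h.r, ← h.r] at this
    exact (M.right.bd.injective this).symm

theorem SUP_future (M : GHMC Γ) (u v : Bd → Fin 2 → ℝ) (h : SUP_Coh M u v) (N : SL(2, ℝ))
    (c₀ c : Bd) (e : ℝ) (he : v c₀ = e • (N • u c₀)) :
    (¬ Cyc (N • M.left.bd c) (M.right.bd c) (M.right.bd c₀)) ↔ 0 ≤ e * dt (N • u c) (v c) := by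
  by_cases hc : c = c₀
  · subst hc
    have h1 : dt (N • u c) (v c) = 0 := by
      rw [he]
      have := SUP_dt_smul 1 e (N • u c) (N • u c)
      rw [one_smul, SUP_dt_self, mul_zero] at this
      exact this
    rw [h.l c, h.r c, Projectivization.smul_mk]
    have h2 := SUP_cyc (N • u c) (v c) (v c) (SUP_act_ne N _ (h.hu c)) (h.hv c) (h.hv c)
    constructor
    · intro _
      rw [h1, mul_zero]
    · intro _ h3
      have h4 := h2.mp h3
      rw [h1] at h4
      simp at h4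
  · have hK := SUP_K M u v h c₀ c hc
    have h2 := SUP_cyc (N • u c) (v c) (v c₀) (SUP_act_ne N _ (h.hu c)) (h.hv c) (h.hv c₀)
    have h3 : dt (v c₀) (N • u c) = e * dt (u c₀) (u c) := by
      rw [he]
      have := SUP_dt_smul e 1 (N • u c₀) (N • u c)
      rw [one_smul, SUP_dt_act, mul_one] at this
      exact this
    have h4 : dt (N • u c) (v c) * dt (v c) (v c₀) * dt (v c₀) (N • u c)
        = -((dt (u c₀) (u c) * dt (v c₀) (v c)) * (e * dt (N • u c) (v c))) := by
      rw [h3, SUP_dt_comm (v c) (v c₀)]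
      ring
    rw [h.l c, h.r c, h.r c₀, Projectivization.smul_mk]
    constructor
    · intro h5
      by_contra h6
      apply h5
      refine h2.mpr ?_
      rw [h4]
      have h7 := not_le.mp h6
      have := mul_neg_of_pos_of_neg hK h7
      linarith
    · intro h5 h6
      have h7 := h2.mp h6
      rw [h4] at h7
      have := mul_nonneg hK.le h5
      linarith

theorem SUP_past (M : GHMC Γ) (u v : Bd → Fin 2 → ℝ) (h : SUP_Coh M u v) (N : SL(2, ℝ))
    (c₀ c : Bd) (e : ℝ) (he : v c₀ = e • (N • u c₀)) :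
    (¬ Cyc (M.right.bd c) (N • M.left.bd c) (M.right.bd c₀)) ↔ e * dt (N • u c) (v c) ≤ 0 := by
  by_cases hc : c = c₀
  · subst hc
    have h1 : dt (N • u c) (v c) = 0 := by
      rw [he]
      have := SUP_dt_smul 1 e (N • u c) (N • u c)
      rw [one_smul, SUP_dt_self, mul_zero] at this
      exact this
    rw [h.l c, h.r c, Projectivization.smul_mk]
    have h2 := SUP_cyc (v c) (N • u c) (v c) (h.hv c) (SUP_act_ne N _ (h.hu c)) (h.hv c)
    constructor
    · intro _
      rw [h1, mul_zero]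
    · intro _ h3
      have h4 := h2.mp h3
      rw [h1] at h4
      simp at h4
  · have hK := SUP_K M u v h c₀ c hc
    have h2 := SUP_cyc (v c) (N • u c) (v c₀) (h.hv c) (SUP_act_ne N _ (h.hu c)) (h.hv c₀)
    have h3 : dt (v c₀) (N • u c) = e * dt (u c₀) (u c) := by
      rw [he]
      have := SUP_dt_smul e 1 (N • u c₀) (N • u c)
      rw [one_smul, SUP_dt_act, mul_one] at this
      exact this
    have h4 : dt (v c) (N • u c) * dt (N • u c) (v c₀) * dt (v c₀) (v c)
        = (dt (u c₀) (u c) * dt (v c₀) (v c)) * (e * dt (N • u c) (v c)) := by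
      rw [SUP_dt_comm (N • u c) (v c₀), h3, SUP_dt_comm (v c) (N • u c)]
      ring
    rw [h.l c, h.r c, h.r c₀, Projectivization.smul_mk]
    constructor
    · intro h5
      by_contra h6
      apply h5
      refine h2.mpr ?_
      rw [h4]
      exact mul_pos hK (not_le.mp h6)
    · intro h5 h6
      have h7 := h2.mp h6
      rw [h4] at h7
      have := mul_nonpos_of_nonneg_of_nonpos hK.le h5
      linarith

theorem SUP_same_sign (M : GHMC Γ) (u v : Bd → Fin 2 → ℝ) (h : SUP_Coh M u v) (N : SL(2, ℝ))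
    (c₀ c : Bd) (e f : ℝ) (he : v c₀ = e • (N • u c₀)) (hf : v c = f • (N • u c))
    (hf0 : f ≠ 0) (he0 : 0 < e) : 0 < f := by
  by_cases hc : c = c₀
  · subst hc
    have h1 : (e - f) • (N • u c) = 0 := by
      rw [sub_smul, ← he, ← hf, sub_self]
    rcases smul_eq_zero.mp h1 with h2 | h2
    · have : f = e := by linarith
      rw [this]; exact he0
    · exact absurd h2 (SUP_act_ne N _ (h.hu c))
  · have hK := SUP_K M u v h c₀ c hc
    have h3 : dt (v c₀) (v c) = e * f * dt (u c₀) (u c) := by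
      rw [he, hf, SUP_dt_smul, SUP_dt_act]
    rw [h3] at hK
    by_contra hcon
    have hcon := not_lt.mp hcon
    have h4 : dt (u c₀) (u c) * (e * f * dt (u c₀) (u c)) = e * f * dt (u c₀) (u c) ^ 2 := by ring
    rw [h4] at hK
    have h5 : e * f * dt (u c₀) (u c) ^ 2 ≤ 0 := by
      apply mul_nonpos_of_nonpos_of_nonneg
      · exact mul_nonpos_of_nonneg_of_nonpos he0.le hcon
      · positivity
    linarith

theorem SUP_hull (N : SL(2, ℝ)) (L : Bd → Matrix (Fin 2) (Fin 2) ℝ) :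
    (∀ X ∈ convexHull ℝ (Set.range L),
      0 ≤ Matrix.trace ((N⁻¹ : SL(2, ℝ)) * X : Matrix (Fin 2) (Fin 2) ℝ)) ↔
    ∀ c, 0 ≤ Matrix.trace ((N⁻¹ : SL(2, ℝ)) * L c : Matrix (Fin 2) (Fin 2) ℝ) := by
  constructor
  · intro h c
    exact h _ (subset_convexHull ℝ _ ⟨c, rfl⟩)
  · intro h X hX
    have hconv : Convex ℝ {X : Matrix (Fin 2) (Fin 2) ℝ |
        0 ≤ Matrix.trace (((N⁻¹ : SL(2, ℝ)) : Matrix (Fin 2) (Fin 2) ℝ) * X)} := by
      intro A hA B hB a b ha hb _
      simp only [Set.mem_ofPred_eq] at hA hB ⊢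
      rw [Matrix.mul_add, Matrix.mul_smul, Matrix.mul_smul, Matrix.trace_add, Matrix.trace_smul,
        Matrix.trace_smul, smul_eq_mul, smul_eq_mul]
      exact add_nonneg (mul_nonneg ha hA) (mul_nonneg hb hB)
    have hsub : Set.range L ⊆ {X : Matrix (Fin 2) (Fin 2) ℝ |
        0 ≤ Matrix.trace (((N⁻¹ : SL(2, ℝ)) : Matrix (Fin 2) (Fin 2) ℝ) * X)} := by
      rintro _ ⟨c, rfl⟩
      exact h c
    exact convexHull_min hsub hconv hX

theorem SUP : SUP_stmt := by
  intro Γ M N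
  obtain ⟨u, v, hcoh⟩ := SUP_coh_exists M
  refine ⟨⟨_, SUP_coh_lift M u v hcoh⟩, ?_, ?_⟩
  · intro c
    constructor
    · intro hc L hL
      obtain ⟨u', v', hcoh', hL'⟩ := SUP_lift_coh M L hL
      rw [hL' c, SUP_trace]
      exact (SUP_touch M u' v' hcoh' N c).mp hc
    · intro h
      have h1 := h _ (SUP_coh_lift M u v hcoh)
      rw [SUP_trace] at h1
      exact (SUP_touch M u v hcoh N c).mpr h1
  · constructor
    · -- from support planes to hulls
      have build : ∀ u v : Bd → Fin 2 → ℝ, SUP_Coh M u v → (∀ c, 0 ≤ dt (N • u c) (v c)) →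
          ∃ L, M.IsLift L ∧ ∀ X ∈ convexHull ℝ (Set.range L),
            0 ≤ Matrix.trace ((N⁻¹ : SL(2, ℝ)) * X : Matrix (Fin 2) (Fin 2) ℝ) := by
        intro u v huv hD
        refine ⟨_, SUP_coh_lift M u v huv, ?_⟩
        rw [SUP_hull]
        intro c
        rw [SUP_trace]
        exact hD c
      have hneg := SUP_coh_neg M u v hcoh
      rintro (⟨⟨c₀, hc₀⟩, hf⟩ | ⟨⟨c₀, hc₀⟩, hf⟩)
      · refine ⟨⟨c₀, hc₀⟩, ?_⟩
        obtain ⟨e, he0, he⟩ := SUP_eps M u v hcoh N c₀ hc₀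
        have hD : ∀ c, 0 ≤ e * dt (N • u c) (v c) := fun c =>
          (SUP_future M u v hcoh N c₀ c e he).mp (hf c₀ c hc₀)
        rcases lt_or_gt_of_ne he0 with h | h
        · refine build u _ hneg (fun c => ?_)
          rw [SUP_dt_neg_right]
          by_contra h1
          have h2 : 0 < dt (N • u c) (v c) := by linarith
          have := mul_neg_of_neg_of_pos h h2
          linarith [hD c]
        · refine build u v hcoh (fun c => ?_)
          by_contra h1
          have h2 := not_le.mp h1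
          have := mul_neg_of_pos_of_neg h h2
          linarith [hD c]
      · refine ⟨⟨c₀, hc₀⟩, ?_⟩
        obtain ⟨e, he0, he⟩ := SUP_eps M u v hcoh N c₀ hc₀
        have hD : ∀ c, e * dt (N • u c) (v c) ≤ 0 := fun c =>
          (SUP_past M u v hcoh N c₀ c e he).mp (hf c₀ c hc₀)
        rcases lt_or_gt_of_ne he0 with h | h
        · refine build u v hcoh (fun c => ?_)
          by_contra h1
          have h2 := not_le.mp h1
          have := mul_pos_of_neg_of_neg h h2
          linarith [hD c]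
        · refine build u _ hneg (fun c => ?_)
          rw [SUP_dt_neg_right]
          by_contra h1
          have h2 : 0 < dt (N • u c) (v c) := by linarith
          have := mul_pos h h2
          linarith [hD c]
    · rintro ⟨⟨c₀, hc₀⟩, L, hL, hX⟩
      rw [SUP_hull] at hX
      obtain ⟨u', v', hcoh', hL'⟩ := SUP_lift_coh M L hL
      have hD : ∀ c, 0 ≤ dt (N • u' c) (v' c) := by
        intro c
        have := hX c
        rw [hL' c, SUP_trace] at this
        exact this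
      obtain ⟨e, he0, he⟩ := SUP_eps M u' v' hcoh' N c₀ hc₀
      rcases lt_or_gt_of_ne he0 with h | h
      · right
        refine ⟨⟨c₀, hc₀⟩, fun c₁ c hc₁ => ?_⟩
        obtain ⟨f, hf0, hf⟩ := SUP_eps M u' v' hcoh' N c₁ hc₁
        have hf1 : f < 0 := by
          rcases lt_or_gt_of_ne hf0 with h1 | h1
          · exact h1
          · have := SUP_same_sign M u' v' hcoh' N c₁ c₀ f e hf he he0 h1
            linarith
        refine (SUP_past M u' v' hcoh' N c₁ c f hf).mpr ?_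
        exact mul_nonpos_of_nonpos_of_nonneg hf1.le (hD c)
      · left
        refine ⟨⟨c₀, hc₀⟩, fun c₁ c hc₁ => ?_⟩
        obtain ⟨f, hf0, hf⟩ := SUP_eps M u' v' hcoh' N c₁ hc₁
        have hf1 : 0 < f := SUP_same_sign M u' v' hcoh' N c₀ c₁ e f he hf hf0 h
        refine (SUP_future M u' v' hcoh' N c₁ c f hf).mpr ?_
        exact mul_nonneg hf1.le (hD c)

end AdSBend
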